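import Mathlib

/-!
# k-locally planar graphs, NP-hardness (MP_32ee78_lc, Q2): definitions used in the final statement
-/

set_option autoImplicit false

namespace Pool.Agent.helper64.LP

/-! ## Topological graphs (drawings in the plane) -/

/-- `A` is a Jordan arc in the plane with end points `p` and `q`: the image of an injective
continuous map of `[0, 1]` with `0 ↦ p`, `1 ↦ q`. -/
def IsArc (A : Set ℂ) (p q : ℂ) : Prop :=
  ∃ γ : unitInterval → ℂ, Continuous γ ∧ Function.Injective γ ∧ γ 0 = p ∧ γ 1 = q ∧
    Set.range γ = A

/-- The sets `A` and `B` cross properly (transversally) at `z`: in suitable local coordinates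
around `z` (a homeomorphism `φ` of a neighbourhood of `z` onto an open set of the plane with
`φ z = 0`) the set `A` is the horizontal axis and `B` is the vertical axis. -/
def ProperCrossing (A B : Set ℂ) (z : ℂ) : Prop :=
  ∃ φ : OpenPartialHomeomorph ℂ ℂ, z ∈ φ.source ∧ φ z = 0 ∧
    (∀ w ∈ φ.source, w ∈ A ↔ (φ w).im = 0) ∧ (∀ w ∈ φ.source, w ∈ B ↔ (φ w).re = 0)

/-- A drawing of the graph `G` in the plane (a topological graph): vertices are distinct points,
edges are Jordan arcs joining their end points and passing through no other vertex, any two edges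
meet in finitely many points, each of which is a shared end point or a proper crossing. -/
structure Drawing {V : Type} (G : SimpleGraph V) where
  /-- position of a vertex -/
  pos : V → ℂ
  /-- distinct vertices are distinct points -/
  pos_inj : Function.Injective pos
  /-- the arc of an edge -/
  arc : Sym2 V → Set ℂ
  /-- the arc of the edge `uv` is a Jordan arc joining `u` and `v` -/
  isArc : ∀ u v, G.Adj u v → IsArc (arc s(u, v)) (pos u) (pos v)
  /-- edges pass through no other vertex -/
  avoid : ∀ u v w, G.Adj u v → pos w ∈ arc s(u, v) → w = u ∨ w = v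
  /-- two edges meet in finitely many points -/
  finite : ∀ e ∈ G.edgeSet, ∀ f ∈ G.edgeSet, e ≠ f → (arc e ∩ arc f).Finite
  /-- each common point is a shared end point or a proper crossing -/
  proper : ∀ e ∈ G.edgeSet, ∀ f ∈ G.edgeSet, e ≠ f → ∀ z ∈ arc e ∩ arc f,
    (∃ v, v ∈ e ∧ v ∈ f ∧ z = pos v) ∨ ProperCrossing (arc e) (arc f) z

/-- The edges `e` and `f` cross: they have a common point which is not a shared end point. -/
def Drawing.Cross {V : Type} {G : SimpleGraph V} (D : Drawing G) (e f : Sym2 V) : Prop :=
  ∃ z ∈ D.arc e ∩ D.arc f, ¬ ∃ v, v ∈ e ∧ v ∈ f ∧ z = D.pos v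

/-- A topological graph is `k`-locally planar if no path with at most `k` edges has a
self-crossing, i.e. no two edges of such a path cross. -/
def Drawing.IsLocallyPlanar {V : Type} {G : SimpleGraph V} (k : ℕ) (D : Drawing G) : Prop :=
  ∀ (u v : V) (p : G.Walk u v), p.IsPath → p.length ≤ k →
    ∀ e ∈ p.edges, ∀ f ∈ p.edges, e ≠ f → ¬ D.Cross e f

/-- An abstract graph is `k`-locally planar if it has a `k`-locally planar drawing. -/
def LocallyPlanar {V : Type} (k : ℕ) (G : SimpleGraph V) : Prop :=
  ∃ D : Drawing G, D.IsLocallyPlanar k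

/-! ## Languages -/

/-- The adjacency matrix of a graph on `{0, …, n-1}`, written row by row. -/
def adjBits (n : ℕ) (A : Fin n → Fin n → Bool) : List Bool :=
  (List.finRange n).flatMap fun i => (List.finRange n).map fun j => A i j

/-- The recognition problem: the set of adjacency matrices of `k`-locally planar graphs. -/
def LPLang (k : ℕ) : Set (List Bool) :=
  {w | ∃ (n : ℕ) (G : SimpleGraph (Fin n)) (A : Fin n → Fin n → Bool),
    (∀ i j, A i j = true ↔ G.Adj i j) ∧ w = adjBits n A ∧ LocallyPlanar k G}

/-- The configuration of the one-tape machine `M` after `t` steps on the input `w # y`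
(`none` if it has halted before). -/
def runTM {Γ Λ : Type} [Inhabited Γ] [Inhabited Λ] (M : Turing.TM0.Machine Γ Λ)
    (ι : Bool → Γ) (sep : Γ) (w y : List Bool) (t : ℕ) : Option (Turing.TM0.Cfg Γ Λ) :=
  (fun o : Option (Turing.TM0.Cfg Γ Λ) => o.bind (Turing.TM0.step M))^[t]
    (some (Turing.TM0.init (w.map ι ++ sep :: y.map ι)))

/-- The class NP: there is a one-tape Turing machine (with finitely many symbols and states) that
halts on every input `w # y` within `c (|w| + |y| + 1) ^ d` steps, such that `w ∈ A` if and only if
there is a certificate `y` of length at most `c (|w| + 1) ^ d` for which `w # y` is accepted. -/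
def InNP (A : Set (List Bool)) : Prop :=
  ∃ (Γ Λ : Type) (_ : Inhabited Γ) (_ : Inhabited Λ) (_ : Finite Γ) (_ : Finite Λ)
    (ι : Bool → Γ) (sep : Γ) (M : Turing.TM0.Machine Γ Λ) (acc : Λ → Bool) (c d : ℕ),
    Function.Injective ι ∧ (∀ b, ι b ≠ default) ∧ (∀ b, ι b ≠ sep) ∧ sep ≠ default ∧
    (∀ w y : List Bool, ∃ t ≤ c * (w.length + y.length + 1) ^ d,
      ∃ cf, runTM M ι sep w y t = some cf ∧ Turing.TM0.step M cf = none) ∧
    (∀ w : List Bool, w ∈ A ↔ ∃ y : List Bool, y.length ≤ c * (w.length + 1) ^ d ∧
      ∃ t cf, runTM M ι sep w y t = some cf ∧ Turing.TM0.step M cf = none ∧ acc cf.q = true)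

/-- `f` is computable in polynomial time (Mathlib's notion: by a Turing machine with finitely many
stacks). -/
def PolyTime (f : List Bool → List Bool) : Prop :=
  Nonempty (Turing.TM2ComputableInPolyTime (id : List Bool → List Bool)
    (id : List Bool → List Bool) f)

/-- Polynomial-time many-one reducibility. -/
def PolyReducible (A B : Set (List Bool)) : Prop :=
  ∃ f : List Bool → List Bool, PolyTime f ∧ ∀ w, w ∈ A ↔ f w ∈ B

/-- `B` is NP-hard: every language in NP is polynomial-time many-one reducible to `B`. -/
def NPHard (B : Set (List Bool)) : Prop :=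
  ∀ A : Set (List Bool), InNP A → PolyReducible A B

end Pool.Agent.helper64.LP
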