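import Pool.Agent.helper64.LP.Defs

/-!
# The graph `Gk`, the ordering problem, uniform CNFs, matrices (not part of the final statement)
-/

set_option autoImplicit false

namespace Pool.Agent.helper64.LP

/-- `a, b, c, d` occur in this cyclic order (up to reversal) on the projective line. -/
def Sep (a b c d : ℝ) : Prop := (a - b) * (b - c) * (c - d) * (d - a) < 0

/-- Vertices of the graph `Gk`. `E`: shared elements, `T`: constraints. -/
inductive Vtx (k : ℕ) (E T : Type) : Type
  /-- the hub -/
  | hub : Vtx k E T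
  /-- shared elements -/
  | el (x : E) : Vtx k E T
  /-- private spokes: `hub - sp τ i 0 - ... - sp τ i (k-3) = m_i` -/
  | sp (τ : T) (i : Fin 4) (j : Fin (k - 2)) : Vtx k E T
  /-- central centre `c₀` -/
  | cen (τ : T) : Vtx k E T
  /-- centres `c_i` -/
  | ctr (τ : T) (i : Fin 4) : Vtx k E T
  /-- legs `el (q τ i) - leg τ i 0 - ... - leg τ i (k-4) - ctr τ i` -/
  | leg (τ : T) (i : Fin 4) (j : Fin (k - 3)) : Vtx k E T
  deriving DecidableEq

/-- The edges of `Gk`, in one direction. -/
inductive Rel (k : ℕ) {E T : Type} (q : T → Fin 4 → E) : Vtx k E T → Vtx k E T → Prop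
  | hub_el (x : E) : Rel k q .hub (.el x)
  | hub_sp (τ : T) (i : Fin 4) (j : Fin (k - 2)) (hj : j.val = 0) : Rel k q .hub (.sp τ i j)
  | sp_sp (τ : T) (i : Fin 4) (j j' : Fin (k - 2)) (hj : j'.val = j.val + 1) :
      Rel k q (.sp τ i j) (.sp τ i j')
  | sp_cen (τ : T) (i : Fin 4) (j : Fin (k - 2)) (hj : j.val + 1 = k - 2) :
      Rel k q (.sp τ i j) (.cen τ)
  | sp_ctr (τ : T) (i : Fin 4) (j : Fin (k - 2)) (hj : j.val + 1 = k - 2) :
      Rel k q (.sp τ i j) (.ctr τ i)
  | sp_ctr' (τ : T) (i : Fin 4) (j : Fin (k - 2)) (hj : j.val + 1 = k - 2) :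
      Rel k q (.sp τ i j) (.ctr τ (i + 1))
  | cen_ctr (τ : T) (i : Fin 4) : Rel k q (.cen τ) (.ctr τ i)
  | el_leg (τ : T) (i : Fin 4) (j : Fin (k - 3)) (hj : j.val = 0) :
      Rel k q (.el (q τ i)) (.leg τ i j)
  | leg_leg (τ : T) (i : Fin 4) (j j' : Fin (k - 3)) (hj : j'.val = j.val + 1) :
      Rel k q (.leg τ i j) (.leg τ i j')
  | leg_ctr (τ : T) (i : Fin 4) (j : Fin (k - 3)) (hj : j.val + 1 = k - 3) :
      Rel k q (.leg τ i j) (.ctr τ i)
  | el_ctr (τ : T) (i : Fin 4) (hk : k = 3) : Rel k q (.el (q τ i)) (.ctr τ i)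

/-- The graph `Gk`. -/
def Gk (k : ℕ) {E T : Type} (q : T → Fin 4 → E) : SimpleGraph (Vtx k E T) :=
  SimpleGraph.fromRel (Rel k q)

/-! ## Elements and constraints of the ordering instance of a CNF -/

/-- Elements: `∞`, divider, false, literals, auxiliary elements. -/
inductive El (W C : Type) : Type
  | inf : El W C
  | div : El W C
  | fls : El W C
  | lit (b : Bool) (w : W) : El W C
  | aux (c : C) (s : Fin 3) : El W C
  deriving DecidableEq

/-- Constraints. -/
inductive Tr (W C : Type) : Type
  | neg (w : W) : Tr W C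
  | chain (c : C) (s : Fin 3) : Tr W C
  | fin (c : C) : Tr W C
  deriving DecidableEq

variable {W C : Type}

/-- the `s`-th literal of a clause as an element (`El.fls` if there is none) -/
def litAt (lits : C → List (Bool × W)) (c : C) (s : ℕ) : El W C :=
  match (lits c)[s]? with
  | some l => .lit l.1 l.2
  | none => .fls

/-- accumulators: `acc 0` is the first literal, `acc (s+1)` is `aux c s` -/
def accAt (lits : C → List (Bool × W)) (c : C) (s : ℕ) : El W C :=
  match s with
  | 0 => litAt lits c 0
  | s + 1 => .aux c ⟨s % 3, Nat.mod_lt _ (by norm_num)⟩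

/-- which constraints are present -/
def Act (lits : C → List (Bool × W)) : Tr W C → Prop
  | .neg _ => True
  | .chain c s => s.val + 1 < (lits c).length
  | .fin _ => True

/-- the four elements of a constraint -/
def quad (lits : C → List (Bool × W)) : Tr W C → Fin 4 → El W C
  | .neg w => ![.inf, .lit true w, .div, .lit false w]
  | .chain c s => ![.inf, accAt lits c s.val, .aux c s, litAt lits c (s.val + 1)]
  | .fin c => ![.inf, .fls, .div, accAt lits c ((lits c).length - 1)]

/-- admissible clause lists -/
def GoodLits (lits : C → List (Bool × W)) : Prop :=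
  ∀ c, (lits c).Nodup ∧ 1 ≤ (lits c).length ∧ (lits c).length ≤ 4

/-! ## Uniform CNFs -/

/-- offsets of coordinates -/
inductive Off : Type
  | same | next | zero
  deriving DecidableEq, Fintype

/-- unary pattern of a pair `(t, j)` of coordinates and the input `w` -/
structure UPat : Type where
  /-- `t = 0` -/
  t0 : Bool
  /-- `t = N - 1` -/
  tl : Bool
  /-- `j = 0` -/
  j0 : Bool
  /-- `j = N - 1` -/
  jl : Bool
  /-- `j = B` -/
  jB : Bool
  /-- `some (some b)`: `j < |w|` and `w_j = b`; `some none`: `j = |w|`; `none`: `j > |w|` -/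
  sym : Option (Option Bool)
  deriving DecidableEq

/-- the fields of a unary pattern -/
def UPat.equiv : UPat ≃ Bool × Bool × Bool × Bool × Bool × Option (Option Bool) where
  toFun u := (u.t0, u.tl, u.j0, u.jl, u.jB, u.sym)
  invFun x := ⟨x.1, x.2.1, x.2.2.1, x.2.2.2.1, x.2.2.2.2.1, x.2.2.2.2.2⟩
  left_inv _ := rfl
  right_inv _ := rfl

instance : Fintype UPat := Fintype.ofEquiv _ UPat.equiv.symm

/-- the symbol of the input at position `j` -/
def symAt (w : List Bool) (j : ℕ) : Option (Option Bool) :=
  if j < w.length then some (w[j]?) else if j = w.length then some none else none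

/-- the unary pattern -/
def upat (w : List Bool) (N B : ℕ) (p : Fin N × Fin N) : UPat where
  t0 := decide (p.1.val = 0)
  tl := decide (p.1.val + 1 = N)
  j0 := decide (p.2.val = 0)
  jl := decide (p.2.val + 1 = N)
  jB := decide (p.2.val = B)
  sym := symAt w p.2.val

/-- resolve an offset -/
def resolve {N : ℕ} (o : Off) (x : Fin N) : Fin N :=
  match o with
  | .same => x
  | .next => if h : x.val + 1 < N then ⟨x.val + 1, h⟩ else x
  | .zero => ⟨0, Nat.lt_of_le_of_lt (Nat.zero_le _) x.isLt⟩

/-- a literal with relative coordinates -/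
structure ULit (VA : Type) : Type where
  /-- sign -/
  sgn : Bool
  /-- kind of the variable -/
  var : VA
  /-- offset of `t` -/
  ot : Off
  /-- offset of `j` -/
  oj : Off
  deriving DecidableEq

/-- a uniform CNF: finitely many kinds of variables and of clauses, with coordinates `(t, j)` -/
structure UCNF : Type 1 where
  /-- kinds of variables -/
  VA : Type
  /-- kinds of clauses -/
  CL : Type
  /-- finitely many kinds -/
  finVA : Finite VA
  /-- finitely many kinds -/
  finCL : Finite CL
  /-- literals of a clause -/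
  lits : CL → List (ULit VA)
  /-- where a clause is present -/
  act : CL → UPat → Bool

namespace UCNF

variable (U : UCNF) (w : List Bool) (N B : ℕ)

/-- variables of the instance -/
abbrev Var : Type := U.VA × Fin N × Fin N

/-- clauses of the instance -/
abbrev Cla : Type := {x : U.CL × Fin N × Fin N // U.act x.1 (upat w N B x.2) = true}

/-- literal lists of the instance -/
def ilits (x : U.Cla w N B) : List (Bool × U.Var N) :=
  (U.lits x.1.1).map fun l => (l.sgn, l.var, resolve l.ot x.1.2.1, resolve l.oj x.1.2.2)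

/-- satisfiability of the instance -/
def Sat : Prop :=
  ∃ α : U.Var N → Bool, ∀ c : U.Cla w N B, ∃ l ∈ U.ilits w N B c, α l.2 = l.1

/-- the constraints of the ordering instance -/
abbrev Con : Type := {τ : Tr (U.Var N) (U.Cla w N B) // Act (U.ilits w N B) τ}

/-- the quadruples of the ordering instance -/
def iquad (τ : U.Con w N B) : Fin 4 → El (U.Var N) (U.Cla w N B) := quad (U.ilits w N B) τ.1

end UCNF

/-! ## Matrices given by local patterns -/

/-- binary pattern of two pairs of coordinates -/
structure BPat : Type where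
  /-- unary pattern of the first pair -/
  p : UPat
  /-- unary pattern of the second pair -/
  p' : UPat
  /-- `t = t'` -/
  tt : Bool
  /-- `t' = t + 1` -/
  tn : Bool
  /-- `t = t' + 1` -/
  tp : Bool
  /-- `j = j'` -/
  jj : Bool
  /-- `j' = j + 1` -/
  jn : Bool
  /-- `j = j' + 1` -/
  jp : Bool
  deriving DecidableEq

/-- the fields of a binary pattern -/
def BPat.equiv : BPat ≃ UPat × UPat × Bool × Bool × Bool × Bool × Bool × Bool where
  toFun u := (u.p, u.p', u.tt, u.tn, u.tp, u.jj, u.jn, u.jp)
  invFun x := ⟨x.1, x.2.1, x.2.2.1, x.2.2.2.1, x.2.2.2.2.1, x.2.2.2.2.2.1, x.2.2.2.2.2.2.1,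
    x.2.2.2.2.2.2.2⟩
  left_inv _ := rfl
  right_inv _ := rfl

instance : Fintype BPat := Fintype.ofEquiv _ BPat.equiv.symm

/-- the binary pattern -/
def bpat (w : List Bool) (N B : ℕ) (x y : Fin N × Fin N) : BPat where
  p := upat w N B x
  p' := upat w N B y
  tt := decide (x.1.val = y.1.val)
  tn := decide (y.1.val = x.1.val + 1)
  tp := decide (x.1.val = y.1.val + 1)
  jj := decide (x.2.val = y.2.val)
  jn := decide (y.2.val = x.2.val + 1)
  jp := decide (x.2.val = y.2.val + 1)

/-- all vertices `(t, j, kind)`, kinds innermost -/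
def allVerts (p N : ℕ) : List (Fin N × Fin N × Fin p) :=
  (List.finRange N).flatMap fun t => (List.finRange N).flatMap fun j =>
    (List.finRange p).map fun a => (t, j, a)

/-- the matrix of a local pattern -/
def matBits (p N B : ℕ) (w : List Bool) (β : Fin p → Fin p → BPat → Bool) : List Bool :=
  (allVerts p N).flatMap fun x => (allVerts p N).map fun y =>
    β x.2.2 y.2.2 (bpat w N B (x.1, x.2.1) (y.1, y.2.1))

end Pool.Agent.helper64.LP
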