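import Pool.Agent.helper64.LP.Gk

/-!
# Core vertices, geometric data, and a small stack language (auxiliary definitions)
-/

set_option autoImplicit false

namespace Pool.Agent.helper64.LP

/-- vertices of the core of a gadget: `m i`, the centre `z = c₀`, the centres `y i = c_i` -/
inductive CV : Type
  | m (i : Fin 4)
  | z
  | y (i : Fin 4)
  deriving DecidableEq

/-- edges of the core, in one direction -/
inductive CAdj : CV → CV → Prop
  | mz (i : Fin 4) : CAdj (.m i) .z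
  | zy (i : Fin 4) : CAdj .z (.y i)
  | my (i : Fin 4) : CAdj (.m i) (.y i)
  | my' (i : Fin 4) : CAdj (.m i) (.y (i + 1))

/-- outer ends of spokes -/
def endPt {E T : Type} (X : E → ℂ) (c : T → CV → ℂ) : E ⊕ (T × Fin 4) → ℂ
  | .inl x => X x
  | .inr a => c a.1 (.m a.2)

/-- all distinguished points -/
def allPt {E T : Type} (h : ℂ) (X : E → ℂ) (c : T → CV → ℂ) : Option (E ⊕ (T × CV)) → ℂ
  | none => h
  | some (.inl x) => X x
  | some (.inr a) => c a.1 a.2

/-- A straight-line drawing of the graph `G₃` (before subdividing spokes and legs) in which only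
core edges of different gadgets cross. -/
structure Geo {E T : Type} (q : T → Fin 4 → E) where
  /-- the hub -/
  h : ℂ
  /-- the elements -/
  X : E → ℂ
  /-- the cores -/
  c : T → CV → ℂ
  inj : Function.Injective (allPt h X c)
  /-- spoke / spoke -/
  ss : ∀ a b, a ≠ b → ∀ z ∈ segment ℝ h (endPt X c a) ∩ segment ℝ h (endPt X c b), z = h
  /-- spoke / leg -/
  sl : ∀ a τ i, ∀ z ∈ segment ℝ h (endPt X c a) ∩ segment ℝ (X (q τ i)) (c τ (.y i)),
    a = .inl (q τ i) ∧ z = X (q τ i)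
  /-- spoke / core -/
  sc : ∀ a τ u v, CAdj u v → ∀ z ∈ segment ℝ h (endPt X c a) ∩ segment ℝ (c τ u) (c τ v),
    ∃ i, a = .inr (τ, i) ∧ (u = .m i ∨ v = .m i) ∧ z = c τ (.m i)
  /-- leg / leg -/
  ll : ∀ τ i τ' i', (τ, i) ≠ (τ', i') → ∀ z ∈ segment ℝ (X (q τ i)) (c τ (.y i)) ∩
    segment ℝ (X (q τ' i')) (c τ' (.y i')), q τ i = q τ' i' ∧ z = X (q τ i)
  /-- leg / core -/
  lc : ∀ τ i τ' u v, CAdj u v → ∀ z ∈ segment ℝ (X (q τ i)) (c τ (.y i)) ∩
    segment ℝ (c τ' u) (c τ' v), τ = τ' ∧ (u = .y i ∨ v = .y i) ∧ z = c τ (.y i)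
  /-- core / core, same gadget -/
  cc : ∀ τ u v u' v', CAdj u v → CAdj u' v' → (u, v) ≠ (u', v') →
    ∀ z ∈ segment ℝ (c τ u) (c τ v) ∩ segment ℝ (c τ u') (c τ v'),
    ∃ w, (w = u ∨ w = v) ∧ (w = u' ∨ w = v') ∧ z = c τ w
  /-- core edge / core vertex, different gadgets -/
  ca : ∀ τ τ' u v w, τ ≠ τ' → CAdj u v → c τ' w ∉ segment ℝ (c τ u) (c τ v)

/-! ## A stack language -/

/-- Commands on finitely many stacks (`Γ k`: alphabet of stack `k`) and a finite register `σ`. -/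
inductive Cmd {K : Type} (Γ : K → Type) (σ : Type) : Type
  | push (k : K) (f : σ → Γ k) : Cmd Γ σ
  | pop (k : K) (f : σ → Option (Γ k) → σ) : Cmd Γ σ
  | peek (k : K) (f : σ → Option (Γ k) → σ) : Cmd Γ σ
  | load (f : σ → σ) : Cmd Γ σ
  | seq (c d : Cmd Γ σ) : Cmd Γ σ
  | ite (p : σ → Bool) (c d : Cmd Γ σ) : Cmd Γ σ
  | whl (p : σ → Bool) (c : Cmd Γ σ) : Cmd Γ σ

/-- Big-step semantics with cost: `Ev c v S v' S' n`. -/
inductive Ev {K : Type} [DecidableEq K] {Γ : K → Type} {σ : Type} :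
    Cmd Γ σ → σ → (∀ k, List (Γ k)) → σ → (∀ k, List (Γ k)) → ℕ → Prop
  | push (k : K) (f : σ → Γ k) (v : σ) (S : ∀ k, List (Γ k)) :
      Ev (.push k f) v S v (Function.update S k (f v :: S k)) 1
  | pop (k : K) (f : σ → Option (Γ k) → σ) (v : σ) (S : ∀ k, List (Γ k)) :
      Ev (.pop k f) v S (f v (S k).head?) (Function.update S k (S k).tail) 1
  | peek (k : K) (f : σ → Option (Γ k) → σ) (v : σ) (S : ∀ k, List (Γ k)) :
      Ev (.peek k f) v S (f v (S k).head?) S 1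
  | load (f : σ → σ) (v : σ) (S : ∀ k, List (Γ k)) : Ev (.load f) v S (f v) S 1
  | seq (c d : Cmd Γ σ) (v v' v'' : σ) (S S' S'' : ∀ k, List (Γ k)) (n m : ℕ)
      (h₁ : Ev c v S v' S' n) (h₂ : Ev d v' S' v'' S'' m) : Ev (.seq c d) v S v'' S'' (n + m + 1)
  | ite_true (p : σ → Bool) (c d : Cmd Γ σ) (v v' : σ) (S S' : ∀ k, List (Γ k)) (n : ℕ)
      (hp : p v = true) (h₁ : Ev c v S v' S' n) : Ev (.ite p c d) v S v' S' (n + 1)
  | ite_false (p : σ → Bool) (c d : Cmd Γ σ) (v v' : σ) (S S' : ∀ k, List (Γ k)) (n : ℕ)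
      (hp : p v = false) (h₁ : Ev d v S v' S' n) : Ev (.ite p c d) v S v' S' (n + 1)
  | whl_false (p : σ → Bool) (c : Cmd Γ σ) (v : σ) (S : ∀ k, List (Γ k)) (hp : p v = false) :
      Ev (.whl p c) v S v S 1
  | whl_true (p : σ → Bool) (c : Cmd Γ σ) (v v' v'' : σ) (S S' S'' : ∀ k, List (Γ k)) (n m : ℕ)
      (hp : p v = true) (h₁ : Ev c v S v' S' n) (h₂ : Ev (.whl p c) v' S' v'' S'' m) :
      Ev (.whl p c) v S v'' S'' (n + m + 1)

/-- all stacks empty except stack `k`, which holds `l` -/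
def oneStack {K : Type} [DecidableEq K] {Γ : K → Type} (k : K) (l : List (Γ k)) :
    ∀ k, List (Γ k) :=
  Function.update (fun _ => []) k l

end Pool.Agent.helper64.LP
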