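import Pool.Agent.helper64.LP.Sound
import Pool.Agent.helper53.LP.GeoB
import Pool.Agent.helper41.LP.GeoDraw
import Pool.Agent.helper70.LP.ModE
import Pool.Agent.helper19.LP.G
import Pool.Agent.helper42.LP.CookLevin
import Pool.Agent.helper22.LP.Compile

/-!
# Assembly: NP-hardness, given the polynomial-time computability of matrices of local patterns
-/

set_option autoImplicit false

namespace Pool.Agent.helper64.LP

theorem exists_geo {E T : Type} [Finite E] [Finite T] (q : T → Fin 4 → E)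
    (hq : ∀ τ, Function.Injective (q τ)) (φ : E → ℝ) (hφ : Function.Injective φ)
    (hs : ∀ τ, Sep (φ (q τ 0)) (φ (q τ 1)) (φ (q τ 2)) (φ (q τ 3))) : Nonempty (Geo q) := by
  obtain ⟨μ, h1, h2, h3, h4⟩ := exists_params q hq φ hφ hs
  exact GeoC.exists_geo_of_params q φ μ hφ h1 h2 h3 h4

/-- `Gk` is `k`-locally planar iff the ordering instance has a solution. -/
theorem gk_iff {k : ℕ} (hk : 3 ≤ k) {E T : Type} [Finite E] [Finite T] (q : T → Fin 4 → E)
    (hq : ∀ τ, Function.Injective (q τ)) :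
    LocallyPlanar k (Gk k q) ↔ ∃ φ : E → ℝ, Function.Injective φ ∧
      ∀ τ, Sep (φ (q τ 0)) (φ (q τ 1)) (φ (q τ 2)) (φ (q τ 3)) := by
  constructor
  · exact sound hk q hq
  · rintro ⟨φ, hφ, hs⟩
    obtain ⟨g⟩ := exists_geo q hq φ hφ hs
    exact geo_drawing hk q g

instance finiteEl {W C : Type} [Finite W] [Finite C] : Finite (El W C) := by
  have : Function.Injective (fun x : El W C => match x with
    | .inf => (Sum.inl 0 : Fin 3 ⊕ (Bool × W) ⊕ (C × Fin 3))
    | .div => Sum.inl 1
    | .fls => Sum.inl 2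
    | .lit b w => Sum.inr (Sum.inl (b, w))
    | .aux c s => Sum.inr (Sum.inr (c, s))) := by
    intro x y h
    cases x <;> cases y <;> simp_all
  exact Finite.of_injective _ this

instance finiteTr {W C : Type} [Finite W] [Finite C] : Finite (Tr W C) := by
  have : Function.Injective (fun x : Tr W C => match x with
    | .neg w => (Sum.inl w : W ⊕ (C × Fin 3) ⊕ C)
    | .chain c s => Sum.inr (Sum.inl (c, s))
    | .fin c => Sum.inr (Sum.inr c)) := by
    intro x y h
    cases x <;> cases y <;> simp_all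
  exact Finite.of_injective _ this

/-- the main theorem, given module H2 -/
theorem main_of (H2 : ∀ (p a b c d : ℕ) (β : Fin p → Fin p → BPat → Bool),
    PolyTime fun w => matBits p (a * (w.length + 1) ^ b)
      (w.length + 1 + c * (w.length + 1) ^ d) w β) (k : ℕ) (hk : 3 ≤ k) : NPHard (LPLang k) := by
  intro A hA
  obtain ⟨U, a, b, c, d, h⟩ := cook_levin A hA
  obtain ⟨p, β, hβ⟩ := bits U hk
  refine ⟨_, H2 p a b c d β, fun w => ?_⟩
  obtain ⟨hN, hg, hw⟩ := h w
  have := U.finVA
  have := U.finCL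
  have hq : ∀ τ, Function.Injective (U.iquad w (a * (w.length + 1) ^ b)
      (w.length + 1 + c * (w.length + 1) ^ d) τ) := fun τ => quad_inj _ hg _ τ.2
  rw [hw, hβ _ _ _ hN hg, gk_iff hk _ hq]
  refine (cnf_iff _ hg).trans ?_
  constructor
  · rintro ⟨φ, h1, h2⟩
    exact ⟨φ, h1, fun τ => h2 τ.1 τ.2⟩
  · rintro ⟨φ, h1, h2⟩
    exact ⟨φ, h1, fun τ hτ => h2 ⟨τ, hτ⟩⟩

end Pool.Agent.helper64.LP
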