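import Pool.Agent.helper3.LP.B
import Pool.Agent.helper41.LP.Far
import Pool.Agent.helper78.LP.S2

/-!
# Soundness of the graph `Gk`: a k-locally planar drawing gives a solution of the ordering instance
-/

set_option autoImplicit false

namespace Pool.Agent.helper64.LP


namespace Snd

/-! ### Walks given by sequences -/

section seq

variable {V : Type} {G : SimpleGraph V}

/-- the walk along a sequence of adjacent vertices -/
def seqWalk (f : ℕ → V) : ∀ N : ℕ, (∀ n < N, G.Adj (f n) (f (n + 1))) → G.Walk (f 0) (f N)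
  | 0, _ => .nil
  | N + 1, h => (seqWalk f N fun n hn => h n (Nat.lt_succ_of_lt hn)).concat (h N (Nat.lt_succ_self N))

theorem length_seqWalk (f : ℕ → V) (N : ℕ) (h : ∀ n < N, G.Adj (f n) (f (n + 1))) :
    (seqWalk f N h).length = N := by
  induction N with
  | zero => rfl
  | succ N ih => simp [seqWalk, ih]

theorem mem_support_seqWalk (f : ℕ → V) (N : ℕ) (h : ∀ n < N, G.Adj (f n) (f (n + 1))) (v : V)
    (hv : v ∈ (seqWalk f N h).support) : ∃ n ≤ N, v = f n := by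
  induction N with
  | zero =>
    simp only [seqWalk, SimpleGraph.Walk.support_nil, List.mem_singleton] at hv
    exact ⟨0, le_refl _, hv⟩
  | succ N ih =>
    rw [seqWalk, SimpleGraph.Walk.support_concat, List.mem_append] at hv
    rcases hv with hv | hv
    · obtain ⟨n, hn, h2⟩ := ih _ hv
      exact ⟨n, by omega, h2⟩
    · rw [List.mem_singleton] at hv
      exact ⟨N + 1, le_refl _, hv⟩

theorem mem_edges_seqWalk (f : ℕ → V) (N : ℕ) (h : ∀ n < N, G.Adj (f n) (f (n + 1))) (e : Sym2 V)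
    (he : e ∈ (seqWalk f N h).edges) : ∃ n < N, e = s(f n, f (n + 1)) := by
  induction N with
  | zero => simp [seqWalk] at he
  | succ N ih =>
    rw [seqWalk, SimpleGraph.Walk.edges_concat, List.concat_eq_append, List.mem_append] at he
    rcases he with he | he
    · obtain ⟨n, hn, h2⟩ := ih _ he
      exact ⟨n, by omega, h2⟩
    · rw [List.mem_singleton] at he
      exact ⟨N, Nat.lt_succ_self _, he⟩

/-- there is a walk of length at most `n` -/
def DD (G : SimpleGraph V) (n : ℕ) (u v : V) : Prop := ∃ w : G.Walk u v, w.length ≤ n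

theorem DD.refl (u : V) : DD G 0 u u := ⟨.nil, by simp⟩

theorem DD.adj {u v : V} (h : G.Adj u v) : DD G 1 u v := ⟨h.toWalk, by simp⟩

theorem DD.symm {n : ℕ} {u v : V} (h : DD G n u v) : DD G n v u := by
  obtain ⟨w, hw⟩ := h
  exact ⟨w.reverse, by simpa using hw⟩

theorem DD.trans {n m l : ℕ} {u v x : V} (h : DD G n u v) (h' : DD G m v x) (hl : n + m ≤ l) :
    DD G l u x := by
  obtain ⟨w, hw⟩ := h
  obtain ⟨w', hw'⟩ := h'
  exact ⟨w.append w', by rw [SimpleGraph.Walk.length_append]; omega⟩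

theorem DD.mono {n m : ℕ} {u v : V} (h : DD G n u v) (hl : n ≤ m) : DD G m u v := by
  obtain ⟨w, hw⟩ := h
  exact ⟨w, by omega⟩

theorem DD.seq (f : ℕ → V) (N : ℕ) (h : ∀ n < N, G.Adj (f n) (f (n + 1))) (a b : ℕ) (hab : a ≤ b)
    (hb : b ≤ N) : DD G (b - a) (f a) (f b) := by
  obtain ⟨c, rfl⟩ : ∃ c, b = a + c := ⟨b - a, by omega⟩
  have h' : ∀ n < c, G.Adj (f (a + n)) (f (a + (n + 1))) := fun n hn => by
    have := h (a + n) (by omega)
    simpa [Nat.add_assoc] using this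
  have w := length_seqWalk (fun n => f (a + n)) c h'
  refine ⟨seqWalk (fun n => f (a + n)) c h', ?_⟩
  rw [w]
  omega

/-- two candidate walks between the ends of two edges -/
theorem near_of {k : ℕ} {e f : Sym2 V} {x y x' y' : V} {n m : ℕ}
    (hx : x ∈ e) (hy : y ∈ f) (hx' : x' ∈ e) (hy' : y' ∈ f) (h : DD G n x y) (h' : DD G m x' y')
    (hnm : n + m + 3 ≤ 2 * k) : ∃ x ∈ e, ∃ y ∈ f, ∃ w : G.Walk x y, w.length + 2 ≤ k := by
  rcases Nat.lt_or_ge (n + 1) k with h1 | h1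
  · obtain ⟨w, hw⟩ := h
    exact ⟨x, hx, y, hy, w, by omega⟩
  · obtain ⟨w, hw⟩ := h'
    exact ⟨x', hx', y', hy', w, by omega⟩

end seq

/-! ### Spokes and legs of `Gk` -/

variable {k : ℕ} {E T : Type} (q : T → Fin 4 → E)

/-- the spoke, continued to the centre `c₀` -/
def Sv (τ : T) (i : Fin 4) : ℕ → Vtx k E T
  | 0 => .hub
  | n + 1 => if h : n < k - 2 then .sp τ i ⟨n, h⟩ else .cen τ

/-- hub, element, leg, centre `c_i` -/
def Yv (τ : T) (i : Fin 4) : ℕ → Vtx k E T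
  | 0 => .hub
  | 1 => .el (q τ i)
  | n + 2 => if h : n < k - 3 then .leg τ i ⟨n, h⟩ else .ctr τ i

theorem adj_of_rel {u v : Vtx k E T} (h : Rel k q u v) : (Gk k q).Adj u v := by
  rw [Gk, SimpleGraph.fromRel_adj]
  refine ⟨?_, Or.inl h⟩
  rintro rfl
  cases h with
  | sp_sp τ i j j' hj => exact absurd hj (by omega)
  | leg_leg τ i j j' hj => exact absurd hj (by omega)

theorem Sv_adj (hk : 3 ≤ k) (τ : T) (i : Fin 4) (n : ℕ) (hn : n < k - 1) :
    (Gk k q).Adj (Sv τ i n) (Sv τ i (n + 1)) := by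
  rcases n with _ | n
  · have h0 : 0 < k - 2 := by omega
    simp only [Sv, h0, dite_true]
    exact adj_of_rel q (.hub_sp τ i _ rfl)
  · have h1 : n < k - 2 := by omega
    simp only [Sv, h1, dite_true]
    by_cases h2 : n + 1 < k - 2
    · simp only [h2, dite_true]
      exact adj_of_rel q (.sp_sp τ i _ _ rfl)
    · simp only [h2, dite_false]
      exact adj_of_rel q (.sp_cen τ i _ (by simp only; omega))

theorem Yv_adj (hk : 3 ≤ k) (τ : T) (i : Fin 4) (n : ℕ) (hn : n < k - 1) :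
    (Gk k q).Adj (Yv q τ i n) (Yv q τ i (n + 1)) := by
  rcases n with _ | _ | n
  · exact adj_of_rel q (.hub_el _)
  · by_cases h2 : 0 < k - 3
    · simp only [Yv, h2, dite_true]
      exact adj_of_rel q (.el_leg τ i _ rfl)
    · simp only [Yv, h2, dite_false]
      exact adj_of_rel q (.el_ctr τ i (by omega))
  · have h1 : n < k - 3 := by omega
    simp only [Yv, h1, dite_true]
    by_cases h2 : n + 1 < k - 3
    · simp only [h2, dite_true]
      exact adj_of_rel q (.leg_leg τ i _ _ rfl)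
    · simp only [h2, dite_false]
      exact adj_of_rel q (.leg_ctr τ i _ (by simp only; omega))

theorem Sv_cen (hk : 3 ≤ k) (τ : T) (i : Fin 4) : (Sv τ i (k - 1) : Vtx k E T) = .cen τ := by
  obtain ⟨n, rfl⟩ : ∃ n, k = n + 3 := ⟨k - 3, by omega⟩
  have : n + 3 - 1 = (n + 1) + 1 := by omega
  rw [this, Sv]
  simp

theorem Yv_ctr (hk : 3 ≤ k) (τ : T) (i : Fin 4) : Yv q τ i (k - 1) = (.ctr τ i : Vtx k E T) := by
  obtain ⟨n, rfl⟩ : ∃ n, k = n + 3 := ⟨k - 3, by omega⟩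
  have : n + 3 - 1 = n + 2 := by omega
  rw [this, Yv]
  simp

/-- the last spoke vertex is adjacent to the centres `c_i`, `c_{i+1}` -/
theorem Sv_ctr_adj (hk : 3 ≤ k) (τ : T) (i j : Fin 4) (h : j = i ∨ j = i + 1) :
    (Gk k q).Adj (Sv τ i (k - 2)) (.ctr τ j) := by
  obtain ⟨n, rfl⟩ : ∃ n, k = n + 3 := ⟨k - 3, by omega⟩
  have : n + 3 - 2 = n + 1 := by omega
  have h1 : n < n + 3 - 2 := by omega
  rw [this, Sv]
  simp only [h1, dite_true]
  rcases h with rfl | rfl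
  · exact adj_of_rel q (.sp_ctr τ _ _ (by simp only; omega))
  · exact adj_of_rel q (.sp_ctr' τ _ _ (by simp only; omega))

/-- first cycle: hub, spoke `e`, `c_i`, leg, `x_i`, hub -/
def C1 (τ : T) (e i : Fin 4) (n : ℕ) : Vtx k E T :=
  if n ≤ k - 2 then Sv τ e n else Yv q τ i (2 * k - 2 - n)

/-- second cycle: hub, spoke `e'`, `c₀`, spoke `g`, hub -/
def C2 (τ : T) (e' g : Fin 4) (n : ℕ) : Vtx k E T :=
  if n ≤ k - 1 then Sv τ e' n else Sv τ g (2 * k - 2 - n)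

theorem C1_adj (hk : 3 ≤ k) (τ : T) (e i : Fin 4) (he : i = e ∨ i = e + 1) (n : ℕ)
    (hn : n < 2 * k - 2) : (Gk k q).Adj (C1 q τ e i n) (C1 q τ e i (n + 1)) := by
  unfold C1
  by_cases h1 : n + 1 ≤ k - 2
  · rw [if_pos (by omega), if_pos h1]
    exact Sv_adj q hk τ e n (by omega)
  · rw [if_neg h1]
    by_cases h2 : n ≤ k - 2
    · rw [if_pos h2]
      have h3 : n = k - 2 := by omega
      have h4 : 2 * k - 2 - (n + 1) = k - 1 := by omega
      rw [h4, h3, Yv_ctr q hk]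
      exact Sv_ctr_adj q hk τ e i he
    · rw [if_neg h2]
      have h3 : 2 * k - 2 - n = 2 * k - 2 - (n + 1) + 1 := by omega
      rw [h3]
      exact (Yv_adj q hk τ i _ (by omega)).symm

theorem C2_adj (hk : 3 ≤ k) (τ : T) (e' g : Fin 4) (n : ℕ)
    (hn : n < 2 * k - 2) : (Gk k q).Adj (C2 τ e' g n) (C2 τ e' g (n + 1)) := by
  unfold C2
  by_cases h1 : n + 1 ≤ k - 1
  · rw [if_pos (by omega), if_pos h1]
    exact Sv_adj q hk τ e' n (by omega)
  · rw [if_neg h1]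
    have key : (if n ≤ k - 1 then Sv τ e' n else Sv τ g (2 * k - 2 - n) : Vtx k E T) =
        Sv τ g (2 * k - 2 - n) := by
      split_ifs with h2
      · have h3 : n = k - 1 := by omega
        have h4 : 2 * k - 2 - n = k - 1 := by omega
        rw [h4, h3, Sv_cen hk, Sv_cen hk]
      · rfl
    rw [key]
    have h3 : 2 * k - 2 - n = 2 * k - 2 - (n + 1) + 1 := by omega
    rw [h3]
    exact (Sv_adj q hk τ g _ (by omega)).symm

/-! ### kinds of vertices, disjointness -/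

theorem Sv_pos {τ : T} {i : Fin 4} {n : ℕ} (h0 : 0 < n) (hn : n ≤ k - 2) :
    ∃ j, (Sv τ i n : Vtx k E T) = .sp τ i j := by
  rcases n with _ | n
  · omega
  · have h1 : n < k - 2 := by omega
    exact ⟨⟨n, h1⟩, by simp [Sv, h1]⟩

/-- the vertices of the first cycle other than the hub -/
def K1 (τ : T) (e i : Fin 4) (v : Vtx k E T) : Prop :=
  (∃ j, v = .sp τ e j) ∨ v = .ctr τ i ∨ (∃ j, v = .leg τ i j) ∨ v = .el (q τ i)

/-- the vertices of the second cycle other than the hub -/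
def K2 (τ : T) (e' g : Fin 4) (v : Vtx k E T) : Prop :=
  (∃ j, v = .sp τ e' j) ∨ (∃ j, v = .sp τ g j) ∨ v = .cen τ

theorem C1_K1 (hk : 3 ≤ k) (τ : T) (e i : Fin 4) (n : ℕ) (h0 : 0 < n) (hn : n < 2 * k - 2) :
    K1 q τ e i (C1 q τ e i n : Vtx k E T) := by
  unfold C1 K1
  split_ifs with h1
  · exact Or.inl (Sv_pos h0 h1)
  · obtain ⟨m, hm⟩ : ∃ m, 2 * k - 2 - n = m + 1 := ⟨2 * k - 2 - n - 1, by omega⟩
    rw [hm]
    rcases m with _ | m
    · exact Or.inr (Or.inr (Or.inr rfl))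
    · simp only [Yv]
      split_ifs with h2
      · exact Or.inr (Or.inr (Or.inl ⟨_, rfl⟩))
      · exact Or.inr (Or.inl rfl)

theorem C2_K2 (hk : 3 ≤ k) (τ : T) (e' g : Fin 4) (n : ℕ) (h0 : 0 < n) (hn : n < 2 * k - 2) :
    K2 τ e' g (C2 τ e' g n : Vtx k E T) := by
  unfold C2 K2
  split_ifs with h1
  · rcases Nat.lt_or_ge (k - 2) n with h2 | h2
    · have : n = k - 1 := by omega
      rw [this, Sv_cen hk]
      exact Or.inr (Or.inr rfl)
    · exact Or.inl (Sv_pos h0 h2)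
  · exact Or.inr (Or.inl (Sv_pos (by omega) (by omega)))

theorem K1_K2 (q : T → Fin 4 → E) {τ : T} {e e' g i : Fin 4} (h1 : e ≠ e') (h2 : e ≠ g) {v : Vtx k E T}
    (ha : K1 q τ e i v) (hb : K2 τ e' g v) : False := by
  rcases ha with ⟨j, rfl⟩ | rfl | ⟨j, rfl⟩ | rfl
  · rcases hb with ⟨j', h⟩ | ⟨j', h⟩ | h
    · simp only [Vtx.sp.injEq] at h; exact h1 h.2.1
    · simp only [Vtx.sp.injEq] at h; exact h2 h.2.1
    · cases h
  · rcases hb with ⟨j', h⟩ | ⟨j', h⟩ | h <;> cases h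
  · rcases hb with ⟨j', h⟩ | ⟨j', h⟩ | h <;> cases h
  · rcases hb with ⟨j', h⟩ | ⟨j', h⟩ | h <;> cases h

theorem K1_hub (q : T → Fin 4 → E) {τ : T} {e i : Fin 4} (h : K1 q τ e i (.hub : Vtx k E T)) : False := by
  rcases h with ⟨j, h⟩ | h | ⟨j, h⟩ | h <;> cases h

theorem K2_hub {τ : T} {e' g : Fin 4} (h : K2 τ e' g (.hub : Vtx k E T)) : False := by
  rcases h with ⟨j, h⟩ | ⟨j, h⟩ | h <;> cases h

/-! ### near pairs -/

theorem S_hub (hk : 3 ≤ k) (τ : T) (i : Fin 4) (n : ℕ) (hn : n ≤ k - 1) :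
    DD (Gk k q) n (Sv τ i n) .hub := by
  have := DD.seq (G := Gk k q) (Sv τ i) (k - 1) (Sv_adj q hk τ i) 0 n (Nat.zero_le _) hn
  simpa [Sv] using this.symm

theorem S_end (hk : 3 ≤ k) (τ : T) (i : Fin 4) (n : ℕ) (hn : n ≤ k - 2) :
    DD (Gk k q) (k - 2 - n) (Sv τ i n) (Sv τ i (k - 2)) :=
  DD.seq (G := Gk k q) (Sv τ i) (k - 1) (Sv_adj q hk τ i) n (k - 2) hn (by omega)

theorem Y_hub (hk : 3 ≤ k) (τ : T) (i : Fin 4) (n : ℕ) (hn : n ≤ k - 1) :
    DD (Gk k q) n (Yv q τ i n) .hub := by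
  have := DD.seq (G := Gk k q) (Yv q τ i) (k - 1) (Yv_adj q hk τ i) 0 n (Nat.zero_le _) hn
  simpa [Yv] using this.symm

theorem Y_end (hk : 3 ≤ k) (τ : T) (i : Fin 4) (n : ℕ) (hn : n ≤ k - 1) :
    DD (Gk k q) (k - 1 - n) (Yv q τ i n) (.ctr τ i) := by
  have := DD.seq (G := Gk k q) (Yv q τ i) (k - 1) (Yv_adj q hk τ i) n (k - 1) hn (le_refl _)
  rwa [Yv_ctr q hk] at this

theorem m_cen (hk : 3 ≤ k) (τ : T) (i : Fin 4) : DD (Gk k q) 1 (Sv τ i (k - 2)) (.cen τ) := by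
  have := DD.adj (Sv_adj q hk τ i (k - 2) (by omega))
  have h2 : k - 2 + 1 = k - 1 := by omega
  rwa [h2, Sv_cen hk] at this

theorem c_cen (τ : T) (i : Fin 4) : DD (Gk k q) 1 (.ctr τ i) (.cen τ) :=
  (DD.adj (adj_of_rel q (.cen_ctr τ i))).symm

theorem m_ctr (hk : 3 ≤ k) (τ : T) (i j : Fin 4) (h : j = i ∨ j = i + 1) :
    DD (Gk k q) 1 (Sv τ i (k - 2)) (.ctr τ j) := DD.adj (Sv_ctr_adj q hk τ i j h)

/-- data of an edge of the first cycle: near the hub, and near the core -/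
theorem C1_data (hk : 3 ≤ k) (τ : T) (e i : Fin 4) (n : ℕ) (hn : n < 2 * k - 2) :
    ∃ α : ℕ, α ≤ k - 2 ∧
      (∃ x ∈ s(C1 q τ e i n, C1 q τ e i (n + 1)), DD (Gk k q) α x .hub) ∧
      ((α ≤ k - 3 ∧ ∃ x ∈ s(C1 q τ e i n, C1 q τ e i (n + 1)),
          DD (Gk k q) (k - 3 - α) x (Sv τ e (k - 2))) ∨
        (∃ x ∈ s(C1 q τ e i n, C1 q τ e i (n + 1)), DD (Gk k q) (k - 2 - α) x (.ctr τ i))) := by
  unfold C1
  by_cases h1 : n + 1 ≤ k - 2
  · rw [if_pos (by omega), if_pos h1]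
    refine ⟨n, by omega, ⟨_, Sym2.mem_mk_left _ _, S_hub q hk τ e n (by omega)⟩,
      Or.inl ⟨by omega, _, Sym2.mem_mk_right _ _, ?_⟩⟩
    have := S_end q hk τ e (n + 1) h1
    exact this.mono (by omega)
  · rw [if_neg h1]
    by_cases h2 : n ≤ k - 2
    · rw [if_pos h2]
      have h3 : n = k - 2 := by omega
      subst h3
      have h4 : 2 * k - 2 - (k - 2 + 1) = k - 1 := by omega
      rw [h4, Yv_ctr q hk]
      exact ⟨k - 2, le_refl _, ⟨_, Sym2.mem_mk_left _ _, S_hub q hk τ e (k - 2) (by omega)⟩,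
        Or.inr ⟨_, Sym2.mem_mk_right _ _, (DD.refl _).mono (Nat.zero_le _)⟩⟩
    · rw [if_neg h2]
      refine ⟨2 * k - 2 - (n + 1), by omega, ⟨_, Sym2.mem_mk_right _ _,
        Y_hub q hk τ i _ (by omega)⟩, Or.inr ⟨_, Sym2.mem_mk_left _ _, ?_⟩⟩
      exact (Y_end q hk τ i (2 * k - 2 - n) (by omega)).mono (by omega)

/-- data of an edge of the second cycle -/
theorem C2_data (hk : 3 ≤ k) (τ : T) (e' g : Fin 4) (n : ℕ) (hn : n < 2 * k - 2) :
    ∃ β : ℕ, β ≤ k - 2 ∧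
      (∃ y ∈ s((C2 τ e' g n : Vtx k E T), C2 τ e' g (n + 1)), DD (Gk k q) β y .hub) ∧
      ((β ≤ k - 3 ∧ ∃ y ∈ s((C2 τ e' g n : Vtx k E T), C2 τ e' g (n + 1)), ∃ j, (j = e' ∨ j = g) ∧
          DD (Gk k q) (k - 3 - β) y (Sv τ j (k - 2))) ∨
        (β = k - 2 ∧ .cen τ ∈ s((C2 τ e' g n : Vtx k E T), C2 τ e' g (n + 1)))) := by
  unfold C2
  by_cases h1 : n + 1 ≤ k - 1
  · rw [if_pos (by omega), if_pos h1]
    by_cases h2 : n + 1 ≤ k - 2
    · refine ⟨n, by omega, ⟨_, Sym2.mem_mk_left _ _, S_hub q hk τ e' n (by omega)⟩,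
        Or.inl ⟨by omega, _, Sym2.mem_mk_right _ _, e', Or.inl rfl, ?_⟩⟩
      exact (S_end q hk τ e' (n + 1) h2).mono (by omega)
    · have h3 : n = k - 2 := by omega
      subst h3
      have h4 : k - 2 + 1 = k - 1 := by omega
      rw [h4, Sv_cen hk]
      exact ⟨k - 2, le_refl _, ⟨_, Sym2.mem_mk_left _ _, S_hub q hk τ e' (k - 2) (by omega)⟩,
        Or.inr ⟨rfl, Sym2.mem_mk_right _ _⟩⟩
  · rw [if_neg h1]
    have key : (if n ≤ k - 1 then Sv τ e' n else Sv τ g (2 * k - 2 - n) : Vtx k E T) =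
        Sv τ g (2 * k - 2 - n) := by
      split_ifs with h2
      · have h3 : n = k - 1 := by omega
        have h4 : 2 * k - 2 - n = k - 1 := by omega
        rw [h4, h3, Sv_cen hk, Sv_cen hk]
      · rfl
    rw [key]
    by_cases h2 : n = k - 1
    · have h4 : 2 * k - 2 - n = k - 1 := by omega
      have h5 : 2 * k - 2 - (n + 1) = k - 2 := by omega
      rw [h4, h5, Sv_cen hk]
      exact ⟨k - 2, le_refl _, ⟨_, Sym2.mem_mk_right _ _, S_hub q hk τ g (k - 2) (by omega)⟩,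
        Or.inr ⟨rfl, Sym2.mem_mk_left _ _⟩⟩
    · refine ⟨2 * k - 2 - (n + 1), by omega, ⟨_, Sym2.mem_mk_right _ _,
        S_hub q hk τ g _ (by omega)⟩, Or.inl ⟨by omega, _, Sym2.mem_mk_left _ _, g, Or.inr rfl, ?_⟩⟩
      exact (S_end q hk τ g (2 * k - 2 - n) (by omega)).mono (by omega)

/-- all pairs of edges of the two cycles are near -/
theorem near_pairs (hk : 3 ≤ k) (τ : T) (e e' g i : Fin 4) (n m : ℕ)
    (hn : n < 2 * k - 2) (hm : m < 2 * k - 2) :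
    ∃ x ∈ s(C1 q τ e i n, C1 q τ e i (n + 1)), ∃ y ∈ s((C2 τ e' g m : Vtx k E T), C2 τ e' g (m + 1)),
      ∃ w : (Gk k q).Walk x y, w.length + 2 ≤ k := by
  obtain ⟨α, hα, ⟨x, hx, dx⟩, hc⟩ := C1_data q hk τ e i n hn
  obtain ⟨β, hβ, ⟨y, hy, dy⟩, hc'⟩ := C2_data q hk τ e' g m hm
  have hub := dx.trans dy.symm (le_refl _)
  rcases hc with ⟨hα', x', hx', dx'⟩ | ⟨x', hx', dx'⟩
  · rcases hc' with ⟨hβ', y', hy', j, hj, dy'⟩ | ⟨hβ', hy'⟩
    · have h1 := (dx'.trans (m_cen q hk τ e) (le_refl _)).trans (m_cen q hk τ j).symm (le_refl _)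
      exact near_of hx hy hx' hy' hub (h1.trans dy'.symm (le_refl _)) (by omega)
    · exact near_of hx hy hx' hy' hub (dx'.trans (m_cen q hk τ e) (le_refl _)) (by omega)
  · rcases hc' with ⟨hβ', y', hy', j, hj, dy'⟩ | ⟨hβ', hy'⟩
    · have h1 := (dx'.trans (c_cen q τ i) (le_refl _)).trans (m_cen q hk τ j).symm (le_refl _)
      exact near_of hx hy hx' hy' hub (h1.trans dy'.symm (le_refl _)) (by omega)
    · exact near_of hx hy hx' hy' hub (dx'.trans (c_cen q τ i) (le_refl _)) (by omega)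

/-! ### no interlacing -/

theorem noCross {V : Type} {G : SimpleGraph V} {k : ℕ} {D : Drawing G} (hD : D.IsLocallyPlanar k)
    {a b c d : V} (hab : G.Adj a b) (hcd : G.Adj c d) (hne : s(a, b) ≠ s(c, d))
    (hnear : ∃ x ∈ s(a, b), ∃ y ∈ s(c, d), ∃ w : G.Walk x y, w.length + 2 ≤ k) :
    ¬ D.Cross s(a, b) s(c, d) := by
  obtain ⟨u, v, p, hp, hl, h1, h2⟩ := near_path G hab hcd hne hnear
  exact hD u v p hp hl _ h1 _ h2 hne

theorem C1_zero (τ : T) (e i : Fin 4) : (C1 q τ e i 0 : Vtx k E T) = .hub := by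
  simp [C1, Sv]

theorem C2_zero (τ : T) (e' g : Fin 4) : (C2 τ e' g 0 : Vtx k E T) = .hub := by
  simp [C2, Sv]

theorem C1_last (hk : 3 ≤ k) (τ : T) (e i : Fin 4) :
    (C1 q τ e i (2 * k - 2) : Vtx k E T) = .hub := by
  rw [C1, if_neg (by omega), Nat.sub_self, Yv]

theorem C2_last (hk : 3 ≤ k) (τ : T) (e' g : Fin 4) :
    (C2 τ e' g (2 * k - 2) : Vtx k E T) = .hub := by
  rw [C2, if_neg (by omega), Nat.sub_self, Sv]

/-- an edge of the first cycle is no edge of the second one -/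
theorem C1_ne_C2 (hk : 3 ≤ k) (τ : T) {e e' g i : Fin 4} (h1 : e ≠ e') (h2 : e ≠ g) (n m : ℕ)
    (hn : n < 2 * k - 2) (hm : m < 2 * k - 2) :
    s(C1 q τ e i n, C1 q τ e i (n + 1)) ≠ s((C2 τ e' g m : Vtx k E T), C2 τ e' g (m + 1)) := by
  intro h
  have hx : ∃ x : Vtx k E T, K1 q τ e i x ∧ x ∈ s(C1 q τ e i n, C1 q τ e i (n + 1)) := by
    rcases Nat.eq_zero_or_pos n with h0 | h0
    · exact ⟨_, C1_K1 q hk τ e i (n + 1) (by omega) (by omega), Sym2.mem_mk_right _ _⟩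
    · exact ⟨_, C1_K1 q hk τ e i n h0 hn, Sym2.mem_mk_left _ _⟩
  obtain ⟨x, hK, hx⟩ := hx
  rw [h, Sym2.mem_iff] at hx
  have key : ∀ l ≤ 2 * k - 2, x ≠ C2 τ e' g l := by
    rintro l hl rfl
    rcases Nat.eq_zero_or_pos l with h0 | h0
    · subst h0
      rw [C2_zero] at hK
      exact K1_hub q hK
    · rcases Nat.lt_or_ge l (2 * k - 2) with h3 | h3
      · exact K1_K2 q h1 h2 hK (C2_K2 hk τ e' g l h0 h3)
      · have : l = 2 * k - 2 := by omega
        rw [this, C2_last hk] at hK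
        exact K1_hub q hK
  rcases hx with hx | hx
  · exact key m (by omega) hx
  · exact key (m + 1) (by omega) hx

theorem NI (hk : 3 ≤ k) {D : Drawing (Gk k q)} (hD : D.IsLocallyPlanar k) (θ : Vtx k E T → ℝ)
    (hθ : ∀ (a b c d : Vtx k E T), (Gk k q).Adj .hub a → (Gk k q).Adj .hub b →
      (Gk k q).Adj .hub c → (Gk k q).Adj .hub d →
        ∀ (p : (Gk k q).Walk a c) (r : (Gk k q).Walk b d), .hub ∉ p.support → .hub ∉ r.support →
        (∀ v ∈ p.support, v ∉ r.support) →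
        (∀ e, e = s(.hub, a) ∨ e = s(.hub, c) ∨ e ∈ p.edges →
          ∀ f, f = s(.hub, b) ∨ f = s(.hub, d) ∨ f ∈ r.edges → ¬ D.Cross e f) →
        ¬ Sep (θ a) (θ b) (θ c) (θ d))
    (τ : T) (e e' g i : Fin 4) (he : i = e ∨ i = e + 1) (h1 : e ≠ e') (h2 : e ≠ g) (o : Fin (k - 2))
    (ho : o.val = 0) :
    ¬ Sep (θ (.sp τ e o)) (θ (.sp τ e' o)) (θ (.el (q τ i))) (θ (.sp τ g o)) := by
  have ho' : o = ⟨0, by omega⟩ := Fin.ext ho
  have a1 : ∀ n < 2 * k - 4, (Gk k q).Adj (C1 q τ e i (1 + n)) (C1 q τ e i (1 + (n + 1))) :=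
    fun n hn => C1_adj q hk τ e i he (1 + n) (by omega)
  have a2 : ∀ n < 2 * k - 4, (Gk k q).Adj (C2 τ e' g (1 + n)) (C2 τ e' g (1 + (n + 1))) :=
    fun n hn => C2_adj q hk τ e' g (1 + n) (by omega)
  have e1 : C1 q τ e i (1 + 0) = (.sp τ e o : Vtx k E T) := by
    have : (0 : ℕ) < k - 2 := by omega
    rw [C1, if_pos (by omega), Sv, dif_pos this, ho']
  have e2 : C1 q τ e i (1 + (2 * k - 4)) = (.el (q τ i) : Vtx k E T) := by
    have h3 : 2 * k - 2 - (1 + (2 * k - 4)) = 1 := by omega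
    rw [C1, if_neg (by omega), h3, Yv]
  have e3 : C2 τ e' g (1 + 0) = (.sp τ e' o : Vtx k E T) := by
    have : (0 : ℕ) < k - 2 := by omega
    rw [C2, if_pos (by omega), Sv, dif_pos this, ho']
  have e4 : C2 τ e' g (1 + (2 * k - 4)) = (.sp τ g o : Vtx k E T) := by
    have h3 : 2 * k - 2 - (1 + (2 * k - 4)) = 0 + 1 := by omega
    have : (0 : ℕ) < k - 2 := by omega
    rw [C2, if_neg (by omega), h3, Sv, dif_pos this, ho']
  have hsp : ∀ j : Fin 4, (Gk k q).Adj .hub (.sp τ j o) := fun j => adj_of_rel q (.hub_sp τ j o ho)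
  rw [← e1, ← e2, ← e3, ← e4]
  -- the edges
  have E1 : ∀ f, f = s(.hub, C1 q τ e i (1 + 0)) ∨ f = s(.hub, C1 q τ e i (1 + (2 * k - 4))) ∨
      f ∈ (seqWalk (fun n => C1 q τ e i (1 + n)) (2 * k - 4) a1).edges →
      ∃ n < 2 * k - 2, f = s(C1 q τ e i n, C1 q τ e i (n + 1)) := by
    rintro f (hf | hf | hf)
    · exact ⟨0, by omega, by rw [hf, C1_zero]⟩
    · refine ⟨1 + (2 * k - 4), by omega, ?_⟩
      have h3 : 1 + (2 * k - 4) + 1 = 2 * k - 2 := by omega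
      rw [hf, h3, C1_last q hk, Sym2.eq_swap]
    · obtain ⟨n, hn, h3⟩ := mem_edges_seqWalk _ _ _ _ hf
      exact ⟨1 + n, by omega, h3⟩
  have E2 : ∀ f, f = s(.hub, C2 τ e' g (1 + 0)) ∨ f = s(.hub, C2 τ e' g (1 + (2 * k - 4))) ∨
      f ∈ (seqWalk (fun n => C2 τ e' g (1 + n)) (2 * k - 4) a2).edges →
      ∃ n < 2 * k - 2, f = s((C2 τ e' g n : Vtx k E T), C2 τ e' g (n + 1)) := by
    rintro f (hf | hf | hf)
    · exact ⟨0, by omega, by rw [hf, C2_zero]⟩
    · refine ⟨1 + (2 * k - 4), by omega, ?_⟩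
      have h3 : 1 + (2 * k - 4) + 1 = 2 * k - 2 := by omega
      rw [hf, h3, C2_last hk, Sym2.eq_swap]
    · obtain ⟨n, hn, h3⟩ := mem_edges_seqWalk _ _ _ _ hf
      exact ⟨1 + n, by omega, h3⟩
  refine hθ _ _ _ _ (by rw [e1]; exact hsp e) (by rw [e3]; exact hsp e')
    (by rw [e2]; exact adj_of_rel q (.hub_el _)) (by rw [e4]; exact hsp g)
    (seqWalk (fun n => C1 q τ e i (1 + n)) (2 * k - 4) a1)
    (seqWalk (fun n => C2 τ e' g (1 + n)) (2 * k - 4) a2) ?_ ?_ ?_ ?_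
  · intro h3
    obtain ⟨n, hn, h4⟩ := mem_support_seqWalk _ _ _ _ h3
    have := C1_K1 q hk τ e i (1 + n) (by omega) (by omega)
    rw [← h4] at this
    exact K1_hub q this
  · intro h3
    obtain ⟨n, hn, h4⟩ := mem_support_seqWalk _ _ _ _ h3
    have := C2_K2 (E := E) hk τ e' g (1 + n) (by omega) (by omega)
    rw [← h4] at this
    exact K2_hub this
  · intro v hv hv'
    obtain ⟨n, hn, rfl⟩ := mem_support_seqWalk _ _ _ _ hv
    obtain ⟨m, hm, h4⟩ := mem_support_seqWalk _ _ _ _ hv'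
    have k1 := C1_K1 q hk τ e i (1 + n) (by omega) (by omega)
    have k2 := C2_K2 (E := E) hk τ e' g (1 + m) (by omega) (by omega)
    rw [← h4] at k2
    exact K1_K2 q h1 h2 k1 k2
  · intro f hf f' hf'
    obtain ⟨n, hn, rfl⟩ := E1 f hf
    obtain ⟨m, hm, rfl⟩ := E2 f' hf'
    exact noCross hD (C1_adj q hk τ e i he n hn) (C2_adj q hk τ e' g m hm)
      (C1_ne_C2 q hk τ h1 h2 n m hn hm) (near_pairs q hk τ e e' g i n m hn hm)

instance finiteVtx [Finite E] [Finite T] : Finite (Vtx k E T) := by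
  refine Finite.of_surjective (fun x : Unit ⊕ E ⊕ (T × Fin 4 × Fin (k - 2)) ⊕ T ⊕ (T × Fin 4) ⊕
    (T × Fin 4 × Fin (k - 3)) => match x with
    | .inl _ => (.hub : Vtx k E T)
    | .inr (.inl x) => .el x
    | .inr (.inr (.inl x)) => .sp x.1 x.2.1 x.2.2
    | .inr (.inr (.inr (.inl x))) => .cen x
    | .inr (.inr (.inr (.inr (.inl x)))) => .ctr x.1 x.2
    | .inr (.inr (.inr (.inr (.inr x)))) => .leg x.1 x.2.1 x.2.2) ?_
  intro v
  cases v with
  | hub => exact ⟨.inl (), rfl⟩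
  | el x => exact ⟨.inr (.inl x), rfl⟩
  | sp τ i j => exact ⟨.inr (.inr (.inl (τ, i, j))), rfl⟩
  | cen τ => exact ⟨.inr (.inr (.inr (.inl τ))), rfl⟩
  | ctr τ i => exact ⟨.inr (.inr (.inr (.inr (.inl (τ, i))))), rfl⟩
  | leg τ i j => exact ⟨.inr (.inr (.inr (.inr (.inr (τ, i, j))))), rfl⟩

end Snd

open Snd in
/-- Soundness: a `k`-locally planar drawing of `Gk` gives a solution of the ordering instance. -/
theorem sound {k : ℕ} (hk : 3 ≤ k) {E T : Type} [Finite E] [Finite T] (q : T → Fin 4 → E)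
    (_hq : ∀ τ, Function.Injective (q τ)) (h : LocallyPlanar k (Gk k q)) :
    ∃ φ : E → ℝ, Function.Injective φ ∧
      ∀ τ, Sep (φ (q τ 0)) (φ (q τ 1)) (φ (q τ 2)) (φ (q τ 3)) := by
  obtain ⟨D, hD⟩ := h
  have hstar : ∀ u v, (Gk k q).Adj .hub u → (Gk k q).Adj .hub v → u ≠ v →
      ¬ D.Cross s(.hub, u) s(.hub, v) := by
    intro u v hu hv huv
    refine noCross hD hu hv ?_ ⟨.hub, Sym2.mem_mk_left _ _, .hub, Sym2.mem_mk_left _ _, .nil, ?_⟩
    · intro h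
      exact huv (Sym2.congr_right.mp h)
    · simp only [SimpleGraph.Walk.length_nil]; omega
  obtain ⟨θ, hinj, hθ⟩ := rotation D .hub hstar
  refine ⟨fun x => θ (.el x), ?_, fun τ => ?_⟩
  · intro x y hxy
    have := hinj _ _ (adj_of_rel q (.hub_el x)) (adj_of_rel q (.hub_el y)) hxy
    exact Vtx.el.inj this
  · obtain ⟨o, ho⟩ : ∃ o : Fin (k - 2), o.val = 0 := ⟨⟨0, by omega⟩, rfl⟩
    have hsp : ∀ j : Fin 4, (Gk k q).Adj .hub (.sp τ j o) :=
      fun j => adj_of_rel q (.hub_sp τ j o ho)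
    have hel : ∀ x, (Gk k q).Adj .hub (.el x) := fun x => adj_of_rel q (.hub_el x)
    have hmm : ∀ i j : Fin 4, i ≠ j → θ (.sp τ i o) ≠ θ (.sp τ j o) := by
      intro i j hij h3
      have := hinj _ _ (hsp i) (hsp j) h3
      simp only [Vtx.sp.injEq] at this
      exact hij this.2.1
    have hmx : ∀ (i : Fin 4) (x : E), θ (.sp τ i o) ≠ θ (.el x) := by
      intro i x h3
      have := hinj _ _ (hsp i) (hel x) h3
      cases this
    have NI' := NI q hk hD θ hθ τ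
    refine sep_eight (fun i => θ (.sp τ i o)) (fun i => θ (.el (q τ i))) fun i j hji hji' => ?_
    have h10 : i - 1 ≠ i := by decide +revert
    refine sep_cases (hmx _ _) (hmm _ _ h10) (hmm _ _ (Ne.symm hji')) (hmx _ _).symm (hmx _ _).symm
      (hmm _ _ (Ne.symm hji)) ?_ ?_
    · exact NI' (i - 1) i j i (Or.inr (by omega)) h10 (Ne.symm hji') o ho
    · have := NI' i (i - 1) j i (Or.inl rfl) (Ne.symm h10) (Ne.symm hji) o ho
      intro h3
      apply this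
      unfold Sep at h3 ⊢
      linarith

end Pool.Agent.helper64.LP
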